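import Pool.Agent.T9h38.KS.Mat
import Pool.Agent.T9h38.KS.FamB

set_option autoImplicit false

/-!
# The period torsor of K3 surfaces with multiplication by a CM field

Let `X` be a K3 surface over `ℚ̄` (or a hyperkähler variety, or a cubic fourfold) with transcendental
lattice `T`, such that the endomorphism field `E` of the Hodge structure `T` is a CM field; let
`2 k = [E : ℚ]` and `n = dim_E T`. Let `A` be its Kuga-Satake variety, an abelian variety over `ℚ̄`.

**Theorem.** Assume that `n = 1` (`X` has complex multiplication) or that `n` is even, and that `E` has one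
of the properties below. Then every algebraic group `G` over `ℚ` such that the comparison isomorphism of
`h¹(A)` is a point of a torsor of `G` over `ℚ̄` contains the Mumford-Tate group of `A`.

So the torsor of the de Rham-Betti classes of `h¹(A)` is the torsor of the Mumford-Tate group, which is
`Ω^And` by the theorems of Deligne and André, and the equality `Ω^dRB = Ω^And` holds for all objects of
the tensor category generated by `h¹(A)`, which contains the motives `h(X ^ m)` for K3 surfaces (André).
(The Hodge classes on the powers `X ^ m` are algebraic in this case, since all rational Hodge isometries of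
`T` are algebraic by the theorem of Buskin and since they generate the Hodge classes; so for K3
surfaces the torsor is also `Ω^mot`.)

**The condition on the field** (`HasSmallFunctions`): every nonzero rational space of functions on the set of the
embeddings of `E` in `ℂ` which is stable under `Aut(ℂ)` and consists of odd functions (with respect to
complex conjugation) contains a nonzero function with values in `{0, 1, -1}`. We prove this for

1. all abelian fields `E / ℚ` (of any degree);
2. all fields of degree `≤ 4` and `2 p`, `p` an odd prime number;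
3. all fields of degree `8` which are not Galois over `ℚ`;
4. all fields whose maximal real subfield `E⁺` has a triply transitive Galois group, or a doubly transitive
   Galois group such that no number `m (k - m) (k - 1)`, `2 ≤ m ≤ k - 2`, is a square (for example, if
   `Gal(E⁺)` is the symmetric or the alternating group, with no condition on the extension `E / E⁺`);
5. `Separated` fields (the general case) and fields whose odd functions form an irreducible
   representation (for example Galois fields with the quaternion group), and fields of degree `2 ^ r`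
   with an automorphism of `ℂ` which permutes the embeddings cyclically.

So **all CM fields of degree at most ten are included, except the Galois fields with the dihedral group
of order eight** (for these fields the condition is not true; for degree eight, abelian fields are in 1. and
quaternion fields in 5.). Since `n [E : ℚ] ≤ 21` for K3 surfaces, the theorem gives for K3 surfaces over
`ℚ̄`: all CM K3 surfaces (`n = 1`) with `rank T ≤ 10`, all CM K3 surfaces with an abelian field `E`, in
every rank, and the families with `n = 2` and `[E : ℚ] = 6, 8, 10` (`rank T = 12, 16, 20`), always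
without the exception in degree eight.

## The hypothesis `KugaSatakeType`

The Hodge group of `T` is the unitary group of a hermitian form over `E` (Zarhin), and `T ⊗ ℂ` is the sum
of totally isotropic spaces `W_σ`, `W_σ'` (`σ < k`) of dimension `n`, in duality; `E` acts on `W_σ` by the
embedding `e σ` and on `W_σ'` by the conjugate embedding. The first homology of `A` is the even
Clifford algebra `C⁺(T)`, on which the Lie algebra acts by left multiplication. If `w_i` is a basis
of `W_σ`, `w_i'` the dual basis of `W_σ'`, `w_i w_j' + w_j' w_i = δ_{ij}`, and `v` a vector of `T ⊗ ℂ` with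
`v ^ 2 = 1`, then `a σ i : x ↦ w_i x v` and `b σ i : x ↦ w_i' x v` are creation and annihilation operators;
`a σ i * b σ j - b σ j * a σ i` is twice the action of an elementary matrix in `gl(W_σ)`, and an element
`x` of `E` with `x̄ = -x`, which is in the Lie algebra, acts by
`1/2 ∑ σ, e_σ(x) ∑ i (a σ i * b σ i - b σ i * a σ i)`.

## Relation to the literature and to the library

Kreutz, Shen and Vial treat hyperkähler varieties with `h^{1,1} - ρ ≤ 2`, which are here the cases with
`rank T ≤ 4`. `UnitaryTorsors` (MP_caab05_ag) in the library treats even `n` if `k = 1` or if the centre of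
the Lie algebra is rigid, which was known for `[E : ℚ] ≤ 4`; the case `n = 1` is not contained in it,
and the condition on the centre is replaced here by a condition on the field which is proved for the
families above. `CMPeriodTorsors` is about general CM abelian varieties and other conditions (on the CM
type); the CM abelian varieties in the Kuga-Satake varieties for `n = 1` do not satisfy them in general.

## Proof

The Lie algebra `𝔮` of the group, up to homotheties, acts semisimply and has the same commutant as the
Lie algebra `𝔤` of the Hodge group (Schneider-Lang, in the library). It contains the derived algebra of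
`𝔤`, for `n = 1` trivially. Let `X` be a generic element of the centre of `𝔤` in `𝔮`; it is given by an
element `x` of `E` with `x̄ = -x`. If `∑ f σ e_σ(x) = 0` with `f σ ∈ {0, 1, -1}`, then the product of all
`a σ i` with `f σ = 1` and all `b σ i` with `f σ = -1` is a nonzero endomorphism of `H_1(A, ℂ)` which
commutes with the derived algebra and with `X` (`KS/Weight`), hence with the centre of `𝔤`, and so
`∑ f σ e_σ(y) = 0` for all `y` with `ȳ = -y` and `f = 0`. So the space of the relations between
the conjugates of `x` contains no function with values `0`, `1`, `-1`, and the condition on the field implies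
that the numbers `e_σ(x)` are linearly independent. Then all relations between eigenvalues of `X` hold for
the whole centre, and the centre and the homotheties are in the Lie algebra of `G` by the replica argument
of the library.

For the abelian fields let `f` be an element of the space and `χ` a character of the Galois group with
`∑ f(γ) χ(γ) ≠ 0`, of order `m`, with kernel `N`, `χ(γ₀) = exp(2 π i / m)`. The function
`∏_{p | m} (1 - γ₀ ^ (m / p)) · ∑_{ν ∈ N} ν` is in the space, since the `m`-th cyclotomic
polynomial is irreducible, and it has values in `{0, 1, -1}`, since the sums of different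
sets of numbers `m / p` are different modulo `m` (`KS/Abel`). In degree eight one has to exclude spaces of
dimension two; if an automorphism fixes one embedding, but not all, then it acts on such a space as a reflection,
and the eight evaluations, vectors of the same length in a rational plane, would give `√2 ∈ ℚ` (`KS/FamA`).
-/

open Module Matrix Pool.Agent.Y102 Pool.Agent.W516.DR Pool.Agent.H204R3.GP

noncomputable section

namespace Pool.Agent.Results.MP_470b79_ag.CMFieldK3Torsors

section Field

variable {E : Type} [Field E]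

/-- The image of an embedding under an automorphism of `ℂ`. -/
def act (τ : ℂ ≃+* ℂ) (φ : E →+* ℂ) : E →+* ℂ := (τ : ℂ →+* ℂ).comp φ

/-- The complex conjugate of an embedding. -/
def bar (φ : E →+* ℂ) : E →+* ℂ := (starRingEnd ℂ).comp φ

/-- Every nonzero rational space of odd functions on the embeddings which is stable under `Aut(ℂ)`
contains a nonzero function with values in `{0, 1, -1}`. -/
def HasSmallFunctions (E : Type) [Field E] : Prop :=
  ∀ J : Submodule ℚ ((E →+* ℂ) → ℚ), (∀ τ : ℂ ≃+* ℂ, ∀ f ∈ J, (fun φ => f (act τ φ)) ∈ J) →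
    (∀ f ∈ J, ∀ φ, f (bar φ) = -f φ) → J ≠ ⊥ →
    ∃ f ∈ J, f ≠ 0 ∧ ∀ φ, f φ = 0 ∨ f φ = 1 ∨ f φ = -1

/-- Abelian fields: the automorphisms of `ℂ` commute on the embeddings. -/
def Abelian (E : Type) [Field E] : Prop :=
  ∀ (τ τ' : ℂ ≃+* ℂ) (φ : E →+* ℂ), act τ (act τ' φ) = act τ' (act τ φ)

/-- Two embeddings which are not equal or conjugate are separated by an automorphism. -/
def Separated (E : Type) [Field E] : Prop :=
  ∀ φ ψ : E →+* ℂ, ψ ≠ φ → ψ ≠ bar φ → ∃ τ : ℂ ≃+* ℂ, act τ φ = φ ∧ act τ ψ = bar ψ

/-- Some automorphism of `ℂ` permutes the embeddings cyclically, and the degree is a power of two. -/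
def TwoPower (E : Type) [Field E] [CharZero E] : Prop :=
  (∃ k : ℕ, finrank ℚ E = 2 ^ k) ∧ ∃ τ : ℂ ≃+* ℂ, ∀ φ ψ : E →+* ℂ, ∃ n : ℕ, (act τ)^[n] φ = ψ

/-- The representation on the odd functions is irreducible over `ℚ`. -/
def OddIrreducible (E : Type) [Field E] : Prop :=
  ∀ J : Submodule ℚ ((E →+* ℂ) → ℚ), (∀ τ : ℂ ≃+* ℂ, ∀ f ∈ J, (fun φ => f (act τ φ)) ∈ J) →
    (∀ f ∈ J, ∀ φ, f (bar φ) = -f φ) →
    J = ⊥ ∨ ∀ f : (E →+* ℂ) → ℚ, (∀ φ, f (bar φ) = -f φ) → f ∈ J

/-- The embeddings `φ` and `ψ` are equal on the maximal real subfield. -/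
def Same (φ ψ : E →+* ℂ) : Prop := ψ = φ ∨ ψ = bar φ

/-- `Aut(ℂ)` acts doubly transitively on the embeddings of the maximal real subfield. -/
def RealTwoTransitive (E : Type) [Field E] : Prop :=
  ∀ φ ψ φ' ψ' : E →+* ℂ, ¬Same φ ψ → ¬Same φ' ψ' →
    ∃ τ : ℂ ≃+* ℂ, Same φ' (act τ φ) ∧ Same ψ' (act τ ψ)

/-- `Aut(ℂ)` acts triply transitively on the embeddings of the maximal real subfield. -/
def RealThreeTransitive (E : Type) [Field E] : Prop :=
  ∀ φ ψ χ φ' ψ' χ' : E →+* ℂ, ¬Same φ ψ → ¬Same φ χ → ¬Same ψ χ →
    ¬Same φ' ψ' → ¬Same φ' χ' → ¬Same ψ' χ' →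
    ∃ τ : ℂ ≃+* ℂ, Same φ' (act τ φ) ∧ Same ψ' (act τ ψ) ∧ Same χ' (act τ χ)

/-- The fields of the theorem. -/
def Good (E : Type) [Field E] [CharZero E] : Prop :=
  HasSmallFunctions E ∨ Abelian E ∨ finrank ℚ E ≤ 4 ∨
    (∃ p : ℕ, p.Prime ∧ finrank ℚ E = 2 * p) ∨ (finrank ℚ E = 8 ∧ ¬IsGalois ℚ E) ∨
    (6 ≤ finrank ℚ E ∧ RealThreeTransitive E) ∨
    (RealTwoTransitive E ∧ ∃ k : ℕ, finrank ℚ E = 2 * k ∧
      ∀ m : ℕ, 2 ≤ m → m + 2 ≤ k → ¬IsSquare (m * (k - m) * (k - 1))) ∨
    Separated E ∨ TwoPower E ∨ OddIrreducible E

end Field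

section AbVar

variable {g : ℕ} (A : AbVar g)

/-! ### The Lie algebra of the Hodge group -/

/-- The multilinear forms in `2m` variables in the rational homology. -/
abbrev Form (m : ℕ) : Type := MultilinearMap ℚ (fun _ : Fin m × Fin 2 => A.H1) ℚ

/-- `φ` is a de Rham-Betti class in `H^1(A) ^ {⊗ 2m} (m)`. -/
def IsDRB {m : ℕ} (φ : Form A m) : Prop :=
  IsDeRhamBettiForm QBar A.dR (2 * Real.pi * Complex.I) m φ

/-- `φ` is a Hodge class in `H^1(A) ^ {⊗ 2m} (m)`. -/
def IsHodge {m : ℕ} (φ : Form A m) : Prop := IsHodgeTensor (A.per : A.H1 →+ (Fin g → ℂ)) φ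

/-- The endomorphism `X` annihilates the form `φ` (as a derivation). -/
def Annihilates {m : ℕ} (X : Module.End ℚ A.H1) (φ : Form A m) : Prop :=
  ∀ v, ∑ k, φ (Function.update v k (X (v k))) = 0

/-- `X` is in the Lie algebra `𝔤`: it annihilates all classes that are Hodge classes and
de Rham-Betti classes (so all Hodge classes, by the theorem of Deligne). -/
def InLie (X : Module.End ℚ A.H1) : Prop :=
  ∀ (m : ℕ) (φ : Form A m), IsHodge A φ → IsDRB A φ → Annihilates A X φ

/-- The algebra of the endomorphisms of `H_1(A, ℂ)`, as matrices for the basis of the lattice. -/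
abbrev EndC (_ : AbVar g) : Type := Matrix (Fin (2 * g)) (Fin (2 * g)) ℂ

/-- The matrix of the extension of an endomorphism of `H_1(A, ℚ)` to `H_1(A, ℂ)`. -/
def toC (X : Module.End ℚ A.H1) : EndC A := Matrix.of fun i j => (X (Pi.single j 1) i : ℂ)

/-- The complex Lie algebra `𝔤 ⊗ ℂ`, acting on `H_1(A, ℂ)`. -/
def lieC : Submodule ℂ (EndC A) := Submodule.span ℂ {Y | ∃ X, InLie A X ∧ Y = toC A X}

/-! ### Kuga-Satake varieties -/

/-- The canonical anticommutation relations for the creation operators `a σ i` and the annihilation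
operators `b σ i`. -/
def Car {k n : ℕ} (a b : Fin k → Fin n → EndC A) : Prop :=
  (∀ σ i τ j, a σ i * a τ j = -(a τ j * a σ i)) ∧
  (∀ σ i τ j, b σ i * b τ j = -(b τ j * b σ i)) ∧
  ∀ σ i τ j, a σ i * b τ j + b τ j * a σ i = if σ = τ ∧ i = j then 1 else 0

/-- The sum of the `k` Lie algebras `gl(n)`, one for each `σ`. -/
def glSum {k n : ℕ} (a b : Fin k → Fin n → EndC A) : Submodule ℂ (EndC A) :=
  Submodule.span ℂ {Y | ∃ σ i j, Y = a σ i * b σ j - b σ j * a σ i}

/-- `A` is of the type of the Kuga-Satake variety of a Hodge structure of K3 type of dimension `n` over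
its endomorphism field, the CM field `E`: the `e σ`, `σ < k`, are embeddings of `E`, one of each pair of
conjugate embeddings; the Lie algebra `𝔤 ⊗ ℂ` is contained in the sum of `k` Lie algebras `gl(n)`, acting by
creation and annihilation operators, and generates an associative algebra which contains the
`a σ i * b σ j`; and the elements `x` of `E` with `x̄ = -x` are in `𝔤`, where they act by multiples of
`∑ σ, e_σ(x) ∑ i (a σ i * b σ i - b σ i * a σ i)`. -/
def KugaSatakeType (E : Type) [Field E] (n : ℕ) : Prop :=
  ∃ (k : ℕ) (e : Fin k → (E →+* ℂ)) (a b : Fin k → Fin n → EndC A),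
    (∀ φ : E →+* ℂ, ∃! σ, φ = e σ ∨ φ = bar (e σ)) ∧ Car A a b ∧
    lieC A ≤ glSum A a b ∧
    (∀ σ i j, a σ i * b σ j ∈ Algebra.adjoin ℂ (lieC A : Set (EndC A))) ∧
    ∀ x : E, (∀ φ : E →+* ℂ, bar φ x = -φ x) →
      ∃ X, InLie A X ∧ toC A X = ∑ σ, e σ x • ∑ i, (a σ i * b σ i - b σ i * a σ i)

/-! ### Algebraic groups, periods and the Mumford-Tate group -/

/-- The matrix of the comparison isomorphism of `h¹(A)`: the differential forms of the basis of
`H¹_dR(A / ℚ̄)` are integrated over the basis of the lattice. -/
def periods : Matrix (Fin (2 * g)) (Fin g ⊕ Fin g) ℂ :=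
  Matrix.of fun p q => A.dR q (Pi.single p 1)

/-- A subgroup of `GL_R(ℂ)` defined by polynomials with rational coefficients. -/
def IsAlgebraicSubgroup {R : Type} [Fintype R] [DecidableEq R] (G : Subgroup (GL R ℂ)) : Prop :=
  ∃ S : Set (MvPolynomial (R × R) ℚ), ∀ x : GL R ℂ, x ∈ G ↔
    ∀ p ∈ S, MvPolynomial.aeval (fun b : R × R => (x : Matrix R R ℂ) b.1 b.2) p = 0

/-- The matrix `P` belongs to a torsor `G · T⁻¹` of `G` defined over `ℚ̄`. -/
def HasPoint {R C : Type} [Fintype R] [DecidableEq R] [Fintype C] (P : Matrix R C ℂ)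
    (G : Subgroup (GL R ℂ)) : Prop :=
  ∃ T : Matrix C R ℂ, (∀ i j, IsAlgebraic ℚ (T i j)) ∧ ∃ x ∈ G, (x : Matrix R R ℂ) = P * T

/-- The Hodge structure of `H¹(A)`: the complex number `z` acts on `H_1(A, ℝ) = ℂ ^ g` by
multiplication, and on `H¹(A, ℝ)` by the transposed map, here in the basis of `H¹(A, ℚ)` which is
dual to the basis of the lattice. -/
def hodge (z : ℂ) : Matrix (Fin (2 * g)) (Fin (2 * g)) ℂ :=
  Matrix.of fun i j => ((A.lam.repr (z • A.lam i) j : ℝ) : ℂ)

/-- The Mumford-Tate group: the smallest algebraic group over `ℚ` which contains the Hodge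
structure. -/
def mumfordTate : Subgroup (GL (Fin (2 * g)) ℂ) :=
  sInf {G | IsAlgebraicSubgroup G ∧ ∀ z : ℂ, z ≠ 0 → ∃ x ∈ G,
    (x : Matrix (Fin (2 * g)) (Fin (2 * g)) ℂ) = hodge A z}

end AbVar

section Proof

variable {E : Type} [Field E] [NumberField E] [NumberField.IsCMField E]

theorem Good.lib (h : Good E) : Pool.Agent.T9h38.KS.HasSmall E := by
  rcases h with h | h | h | ⟨p, hp, h⟩ | ⟨h1, h2⟩ | ⟨h1, h2⟩ | ⟨h1, k, h2, h3⟩ | h | h | h
  · exact h
  · exact Pool.Agent.T9h38.KS.hasSmall_abelian h
  · exact Pool.Agent.T9h38.KS.hasSmall_four h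
  · by_cases hp2 : p = 2
    · subst hp2
      exact Pool.Agent.T9h38.KS.hasSmall_four (by omega)
    · exact Pool.Agent.T9h38.KS.hasSmall_prime hp hp2 h
  · exact Pool.Agent.T9h38.KS.hasSmall_octic h1 h2
  · exact Pool.Agent.T9h38.KS.hasSmall_trans3 h1 h2
  · exact Pool.Agent.T9h38.KS.hasSmall_trans2 h1 h2 h3
  · exact Pool.Agent.T9h38.KS.hasSmall_separated h
  · exact Pool.Agent.T9h38.KS.hasSmall_cyclic2 h
  · exact Pool.Agent.T9h38.KS.hasSmall_irr h

end Proof

/-- **The period torsor of K3 surfaces with multiplication by a CM field.** -/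
theorem result {g : ℕ} (A : AbVar g) (E : Type) [Field E] [NumberField E]
    [NumberField.IsCMField E] (n : ℕ) (hn : n = 1 ∨ (Even n ∧ n ≠ 0))
    (hA : KugaSatakeType A E n) (hE : Good E) :
    ∀ G : Subgroup (GL (Fin (2 * g)) ℂ), IsAlgebraicSubgroup G → HasPoint (periods A) G →
      mumfordTate A ≤ G := by
  intro G hG hP
  obtain ⟨k, e, a, b, he, ⟨h1, h2, h3⟩, h4, h5, h6⟩ := hA
  obtain ⟨T, hT, x, hx, hxT⟩ := hP
  have hpt := Pool.Agent.R917.pt_of (A := A) hG hT hx hxT
  have hdat : Pool.Agent.T9h38.KS.Dat A E
      (fun p : Fin k × Fin n => matE (2 * g) (a p.1 p.2))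
      (fun p : Fin k × Fin n => matE (2 * g) (b p.1 p.2)) e := by
    refine Pool.Agent.T9h38.KS.dat_of_matrix (a := fun p : Fin k × Fin n => a p.1 p.2)
      (b := fun p : Fin k × Fin n => b p.1 p.2) he (fun p q => h1 _ _ _ _)
      (fun p q => h2 _ _ _ _) (fun p q => ?_) h4 h5 fun x hx => ?_
    · rw [h3]
      by_cases hpq : p = q
      · rw [if_pos hpq, if_pos ⟨congrArg Prod.fst hpq, congrArg Prod.snd hpq⟩]
      · rw [if_neg hpq, if_neg (fun h => hpq (Prod.ext h.1 h.2))]
    · refine h6 x fun φ => ?_
      have e1 : bar φ x = φ (NumberField.IsCMField.complexConj E x) := by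
        rw [NumberField.IsCMField.complexEmbedding_complexConj]
        rfl
      rw [e1, hx, map_neg]
  obtain ⟨l1, l2⟩ := hdat.main (by rcases hn with rfl | ⟨_, h⟩; exacts [one_ne_zero, h])
    (hn.imp id fun h => h.1) hE.lib hpt
  refine sInf_le ⟨hG, fun z hz => ?_⟩
  exact Pool.Agent.R917.hm_mem hpt.grp l1 l2 hz

end Pool.Agent.Results.MP_470b79_ag.CMFieldK3Torsors
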