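import Pool.Agent.T9h38.CM.Prod

set_option autoImplicit false

/-!
# The period torsor of abelian varieties with complex multiplication

Let `A` be an abelian variety over `ℚ̄` of dimension `g` whose endomorphism algebra is a product
`∏ F i` of CM fields with `∑ [F i : ℚ] = 2 g`. So `A` is isogenous to a product of simple abelian
varieties `A i` of CM type `(F i, Φ i)` which are pairwise not isogenous; since `h¹(∏ (A i) ^ (n i))`
generates the same tensor category, this is the case of arbitrary abelian varieties of CM type.
**Nothing is assumed about periods**: `AbVar` is the description of an abelian variety over `ℚ̄` by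
theta functions, and `dR` are its periods.

The main theorem gives a combinatorial condition for the pair `(F, Φ)` which implies
`Ω^dRB = Ω^And` for `h¹(A)`. Consider the embeddings of the `F i` in `ℂ`, with the action of
`Aut(ℂ)`. A *space of relations* (`IsRelationSpace`) is a space of rational functions on this set which
is stable under `Aut(ℂ)`, whose elements are odd with respect to complex conjugation, and which
contains none of the functions `ε_x - ε_y` for `x ≠ y`, where `ε_x` is `1` at `x` and `-1` at the
conjugate of `x`. The condition is that all functions in all spaces of relations have sum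
zero over the CM type `Φ` (`Explained`).

**Theorem.** Assume `Explained`, or assume that
* different `F i` are disjoint (`DisjointFields`): for all embeddings `φ` of `F i` and `ψ` of `F j` there is
  an automorphism of `ℂ` which fixes `φ` and maps `ψ` to its conjugate (this is so if the intersection of
  the Galois closures of `F i` and `F j` is totally real, for example `ℚ`);
* every `(F, Φ) = (F i, Φ i)` has one of the following properties (`Good`). Here `F⁺` is the maximal real
  subfield, `g` is its degree, and `Φ` is called balanced if both extensions to `F` of the embeddings of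
  `K` occur in `Φ` with the same multiplicity, for all imaginary quadratic subfields `K` of `F` (so
  this is no condition if there are no `K`).
  1. `TransitiveType`: `Φ` is balanced, and the Galois group of `F⁺` is triply transitive (`g ≥ 3`), or it
     is doubly transitive and no number `n (g - n) (g - 1)`, `2 ≤ n ≤ g - 2`, is a square (so for
     `g ≤ 8`, and if `g - 1` is a prime number);
  2. `LowDegree`: `g ≤ 2`, or `Φ` is balanced and `g` is a prime number, or `Φ` is balanced
     and primitive and `g = 4`;
  3. `Separated`: for embeddings `φ`, `ψ` of `F`, `ψ ≠ φ`, `ψ ≠ \bar φ`, there is an automorphism of `ℂ` which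
     fixes `φ` and maps `ψ` to its conjugate, that is, `ψ(F)` is not contained in the
     compositum of `φ(F)` and `ψ(F⁺)`;
  4. `TwoPower`: `g` is a power of two and some automorphism of `ℂ` permutes the embeddings of `F`
     cyclically (some prime number is inert in `F`);
  5. `WeilType`: `F` contains an imaginary quadratic field `K`, both embeddings of `K` have the same
     multiplicity in `Φ`, and `Aut(ℂ / K)` permutes the `K`-embeddings of `F` doubly transitively;
  6. `OddIrreducible`: the representation of `Aut(ℂ)` on the odd functions is irreducible over `ℚ`.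

Then every algebraic group `G` over `ℚ` such that the comparison isomorphism of `h¹(A)` is a
point of a torsor of `G` over `ℚ̄` contains the Mumford-Tate group of `A`.

The smallest such group is the group `G_dRB` of the problem; by the theorems of Deligne (Hodge classes
on abelian varieties are absolute) and André (they are motivated) `G_And` is the Mumford-Tate group. So
**`Ω^dRB = Ω^And` for `h(A ^ n)` and all objects of the tensor category generated by `h¹(A)`.**

## Examples

* The general case in every dimension: if the Galois group of the totally real field `F⁺` is the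
  symmetric group (or the alternating group, `g ≥ 5`, or one of the Mathieu groups, ...), then the
  theorem holds for **all** CM extensions `F` of `F⁺` and **all** types `Φ`, if `F` is not `F⁺ K` with an
  imaginary quadratic field `K`; and if `F = F⁺ K`, for all types with the same multiplicities for
  both embeddings of `K` (Weil type).
* Dimension four: all simple abelian varieties of CM type such that no imaginary quadratic
  subfield has the signature `(3, 1)`. This includes the signature `(2, 2)`, where there are
  exceptional Hodge classes (Weil's classes): here the Mumford-Tate group is smaller than for the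
  general type. So for these abelian varieties and their powers all de Rham-Betti classes are Hodge
  classes, and there are exceptional ones.
* Prime dimension: all simple abelian varieties of CM type whose field has no imaginary quadratic
  subfield (in dimension two this is always so).
* Cyclic CM fields of two-power degree, with all types.
* Products of these which are disjoint, for example products of CM elliptic curves.

## Relation to the literature and to the library

The problem file lists `h(E)` for a CM elliptic curve; products of CM elliptic curves are treated by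
Kreutz, Shen and Vial, and simple abelian surfaces of CM type follow from their theorem on
hyper-Kähler varieties of Picard corank two (Kummer surfaces). The other cases are new to our knowledge.
`MildCMMotives`, `GoodClassCMMotives`, `SmallestSubtorsorCM` (MP_f11a48_ag) and `AbelianCMTensors` in the
library are about more CM motives, but there a system of periods with the theorems of Bost and Deligne
is a hypothesis; here nothing is assumed.

## Proof

By the theorem on abelian varieties in the library (`N208`, `Y102`, from the theorem of Schneider and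
Lang) the Lie algebra of `G` contains the components over `ℚ` of the logarithmic derivatives of the
matrix of periods, and the endomorphisms commuting with all of them are the de Rham-Betti endomorphisms.
The group `G ∩ T`, `T` the torus of `∏ F i`, is determined by the monomial relations (Dedekind), and they
give a space of relations in the sense above (`CM/Main`). To prove `Explained` for the families we use the
reproducing kernel `K(x, y)` of a space of relations of dimension `n` (`CM/Ker`), an idempotent
symmetric rational matrix which is invariant under `Aut(ℂ)`. For `n = 1` the functions are multiples of a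
function with the values `± 1`, which gives an imaginary quadratic subfield, and `n = g - 1` and `n ≥ g` are
impossible. In the transitive cases all `K(x, y)²`, and all products `K(x, y) K(y, z) K(z, x)`, are equal,
which implies `n = 1` or `n = g - 1`, by `n (g - n) = g - 1` (`CM/Trans`). For `g = 4` and `n = 2` an
analysis of the rational idempotent `4 × 4` matrices with constant diagonal (`CM/Deg8`) shows that
`F` is a Galois field with the dihedral group, and then `Φ` is not primitive. For prime `g` we
use an automorphism of order `g` and the irreducibility of the cyclotomic polynomial (`CM/Prime`).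
-/

open Module Matrix Pool.Agent.Y102 Pool.Agent.W516.DR Pool.Agent.H204R3.GP

noncomputable section

namespace Pool.Agent.Results.MP_470b79_ag.CMPeriodTorsors

section Field

variable {F : Type} [Field F]

/-- The image of an embedding under an automorphism of `ℂ`. -/
def act (τ : ℂ ≃+* ℂ) (φ : F →+* ℂ) : F →+* ℂ := (τ : ℂ →+* ℂ).comp φ

/-- The complex conjugate of an embedding. -/
def bar (φ : F →+* ℂ) : F →+* ℂ := (starRingEnd ℂ).comp φ

/-- The type `Φ` is balanced with respect to `x`: for every value `κ` of `x`, the embeddings with this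
value are in `Φ` or not in `Φ` equally often. -/
def BalancedAt (Φ : (F →+* ℂ) → Prop) (x : F) : Prop :=
  ∀ κ : ℂ, Nat.card {φ : F →+* ℂ // φ x = κ ∧ Φ φ} = Nat.card {φ : F →+* ℂ // φ x = κ ∧ ¬Φ φ}

/-- The type `Φ` is balanced with respect to all imaginary quadratic subfields. -/
def Balanced [CharZero F] (Φ : (F →+* ℂ) → Prop) : Prop :=
  ∀ (x : F) (q : ℚ), q < 0 → x ^ 2 = (q : F) → BalancedAt Φ x

/-- Primitive types. -/
def Primitive (Φ : (F →+* ℂ) → Prop) : Prop :=
  ∀ φ ψ : F →+* ℂ, φ ≠ ψ → ∃ τ : ℂ ≃+* ℂ, Φ (act τ φ) ∧ ¬Φ (act τ ψ)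

/-- The cases of low degree or prime dimension. -/
def LowDegree [CharZero F] (Φ : (F →+* ℂ) → Prop) : Prop :=
  finrank ℚ F = 2 ∨ finrank ℚ F = 4 ∨
    (Balanced Φ ∧ ((∃ p : ℕ, p.Prime ∧ finrank ℚ F = 2 * p) ∨ (finrank ℚ F = 8 ∧ Primitive Φ)))

/-- Two embeddings which are not equal or conjugate are separated by an automorphism. -/
def Separated (F : Type) [Field F] : Prop :=
  ∀ φ ψ : F →+* ℂ, ψ ≠ φ → ψ ≠ bar φ → ∃ τ : ℂ ≃+* ℂ, act τ φ = φ ∧ act τ ψ = bar ψ

/-- Some automorphism of `ℂ` permutes the embeddings cyclically, and the degree is a power of two. -/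
def TwoPower (F : Type) [Field F] [CharZero F] : Prop :=
  (∃ k : ℕ, finrank ℚ F = 2 ^ k) ∧ ∃ τ : ℂ ≃+* ℂ, ∀ φ ψ : F →+* ℂ, ∃ n : ℕ, (act τ)^[n] φ = ψ

/-- Weil type for a field with a doubly transitive Galois group over an imaginary quadratic field. -/
def WeilType [CharZero F] (Φ : (F →+* ℂ) → Prop) : Prop :=
  ∃ (x : F) (q : ℚ), q < 0 ∧ x ^ 2 = (q : F) ∧
    (∀ φ ψ φ' ψ' : F →+* ℂ, φ ≠ ψ → φ' ≠ ψ' → ψ x = φ x → φ' x = φ x → ψ' x = φ x →
      ∃ τ : ℂ ≃+* ℂ, act τ φ = φ' ∧ act τ ψ = ψ') ∧
    BalancedAt Φ x

/-- The representation on the odd functions is irreducible over `ℚ`. -/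
def OddIrreducible (F : Type) [Field F] : Prop :=
  ∀ J : Submodule ℚ ((F →+* ℂ) → ℚ), (∀ τ : ℂ ≃+* ℂ, ∀ f ∈ J, (fun φ => f (act τ φ)) ∈ J) →
    (∀ f ∈ J, ∀ φ, f (bar φ) = -f φ) →
    J = ⊥ ∨ ∀ f : (F →+* ℂ) → ℚ, (∀ φ, f (bar φ) = -f φ) → f ∈ J

/-- The embeddings `φ` and `ψ` are equal on the maximal real subfield. -/
def Same (φ ψ : F →+* ℂ) : Prop := ψ = φ ∨ ψ = bar φ

/-- `Aut(ℂ)` acts doubly transitively on the embeddings of the maximal real subfield. -/
def RealTwoTransitive (F : Type) [Field F] : Prop :=
  ∀ φ ψ φ' ψ' : F →+* ℂ, ¬Same φ ψ → ¬Same φ' ψ' →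
    ∃ τ : ℂ ≃+* ℂ, Same φ' (act τ φ) ∧ Same ψ' (act τ ψ)

/-- `Aut(ℂ)` acts triply transitively on the embeddings of the maximal real subfield. -/
def RealThreeTransitive (F : Type) [Field F] : Prop :=
  ∀ φ ψ χ φ' ψ' χ' : F →+* ℂ, ¬Same φ ψ → ¬Same φ χ → ¬Same ψ χ →
    ¬Same φ' ψ' → ¬Same φ' χ' → ¬Same ψ' χ' →
    ∃ τ : ℂ ≃+* ℂ, Same φ' (act τ φ) ∧ Same ψ' (act τ ψ) ∧ Same χ' (act τ χ)

/-- Balanced types for fields with a multiply transitive maximal real subfield: triply transitive of
degree at least three, or doubly transitive with an arithmetical condition for the degree `g`. -/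
def TransitiveType [CharZero F] (Φ : (F →+* ℂ) → Prop) : Prop :=
  Balanced Φ ∧ ((6 ≤ finrank ℚ F ∧ RealThreeTransitive F) ∨
    (RealTwoTransitive F ∧ ∃ g : ℕ, finrank ℚ F = 2 * g ∧
      ∀ n : ℕ, 2 ≤ n → n + 2 ≤ g → ¬IsSquare (n * (g - n) * (g - 1))))

/-- The conditions for one factor. -/
def Good [CharZero F] (Φ : (F →+* ℂ) → Prop) : Prop :=
  TransitiveType Φ ∨ LowDegree Φ ∨ Separated F ∨ TwoPower F ∨ WeilType Φ ∨ OddIrreducible F

/-- The fields `F` and `F'` are disjoint. -/
def DisjointFields (F F' : Type) [Field F] [Field F'] : Prop :=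
  ∀ (φ : F →+* ℂ) (ψ : F' →+* ℂ), ∃ τ : ℂ ≃+* ℂ, act τ φ = φ ∧ act τ ψ = bar ψ

end Field

section Product

variable {I : Type} {F : I → Type} [∀ i, Field (F i)]

/-- The function `ε_x - ε_y` on the embeddings of the `F i`. -/
def difference (x y : Σ i, (F i →+* ℂ)) : (Σ i, (F i →+* ℂ)) → ℚ :=
  open Classical in fun z =>
    ((if z = x then 1 else 0) - (if z = ⟨x.1, bar x.2⟩ then 1 else 0)) -
      ((if z = y then 1 else 0) - (if z = ⟨y.1, bar y.2⟩ then 1 else 0))

/-- Spaces of relations. -/
structure IsRelationSpace (J : Submodule ℚ ((Σ i, (F i →+* ℂ)) → ℚ)) : Prop where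
  stable : ∀ τ : ℂ ≃+* ℂ, ∀ f ∈ J, (fun x => f ⟨x.1, act τ x.2⟩) ∈ J
  odd : ∀ f ∈ J, ∀ x, f ⟨x.1, bar x.2⟩ = -f x
  small : ∀ x y, x ≠ y → difference x y ∉ J

end Product

section AbVar

variable {g : ℕ}

/-- The linear map `P` of the rational homology is an element of `End(A) ⊗ ℚ`: it respects the complex
structure of the tangent space and the de Rham cohomology over `ℚ̄`. -/
def IsEndomorphism (A : AbVar g) (P : Module.End ℚ A.H1) : Prop :=
  (∃ Q : (Fin g → ℂ) →ₗ[ℂ] (Fin g → ℂ), ∀ w, A.per (P w) = Q (A.per w)) ∧
    IsDeRhamBettiEnd QBar A.dR P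

variable {I : Type} {F : I → Type} [∀ i, Field (F i)]

/-- The CM type of `A`: the embeddings `φ` of `F i` such that `∏ F i` acts by `φ` on a quotient of
the tangent space. -/
def cmType {A : AbVar g} (ι : (∀ i, F i) →+* Module.End ℚ A.H1) (i : I) (φ : F i →+* ℂ) : Prop :=
  ∃ l : (Fin g → ℂ) →ₗ[ℂ] ℂ, l ≠ 0 ∧ ∀ a v, l (A.per (ι a v)) = φ (a i) * l (A.per v)

/-- The functions in the spaces of relations have sum zero over the CM type. -/
def Explained {A : AbVar g} (ι : (∀ i, F i) →+* Module.End ℚ A.H1) : Prop :=
  ∀ J : Submodule ℚ ((Σ i, (F i →+* ℂ)) → ℚ), IsRelationSpace J → ∀ f ∈ J,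
    ∀ s : Finset (Σ i, (F i →+* ℂ)), (∀ x, x ∈ s ↔ cmType ι x.1 x.2) → ∑ x ∈ s, f x = 0

/-- The matrix of the comparison isomorphism of `h¹(A)`: the differential forms of the basis of
`H¹_dR(A / ℚ̄)` are integrated over the basis of the lattice. -/
def periods (A : AbVar g) : Matrix (Fin (2 * g)) (Fin g ⊕ Fin g) ℂ :=
  Matrix.of fun p q => A.dR q (Pi.single p 1)

/-- A subgroup of `GL_R(ℂ)` defined by polynomials with rational coefficients. -/
def IsAlgebraicSubgroup {R : Type} [Fintype R] [DecidableEq R] (G : Subgroup (GL R ℂ)) : Prop :=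
  ∃ S : Set (MvPolynomial (R × R) ℚ), ∀ x : GL R ℂ, x ∈ G ↔
    ∀ p ∈ S, MvPolynomial.aeval (fun b : R × R => (x : Matrix R R ℂ) b.1 b.2) p = 0

/-- The matrix `P` belongs to a torsor `G · T⁻¹` of `G` defined over `ℚ̄`. -/
def HasPoint {R C : Type} [Fintype R] [DecidableEq R] [Fintype C] (P : Matrix R C ℂ)
    (G : Subgroup (GL R ℂ)) : Prop :=
  ∃ T : Matrix C R ℂ, (∀ i j, IsAlgebraic ℚ (T i j)) ∧ ∃ x ∈ G, (x : Matrix R R ℂ) = P * T

/-- The Hodge structure of `H¹(A)`: the complex number `z` acts on `H_1(A, ℝ) = ℂ ^ g` by
multiplication, and on `H¹(A, ℝ)` by the transposed map, here in the basis of `H¹(A, ℚ)` which is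
dual to the basis of the lattice. -/
def hodge (A : AbVar g) (z : ℂ) : Matrix (Fin (2 * g)) (Fin (2 * g)) ℂ :=
  Matrix.of fun i j => ((A.lam.repr (z • A.lam i) j : ℝ) : ℂ)

/-- The Mumford-Tate group: the smallest algebraic group over `ℚ` which contains the Hodge
structure. -/
def mumfordTate (A : AbVar g) : Subgroup (GL (Fin (2 * g)) ℂ) :=
  sInf {G | IsAlgebraicSubgroup G ∧ ∀ z : ℂ, z ≠ 0 → ∃ x ∈ G,
    (x : Matrix (Fin (2 * g)) (Fin (2 * g)) ℂ) = hodge A z}

end AbVar

section Proof

variable {F : Type} [Field F] [NumberField F]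

theorem Balanced.lib {Φ : (F →+* ℂ) → Prop} (h : Balanced Φ) : Pool.Agent.T9h38.CM.Balanced Φ :=
  fun x q hq hx => h x q hq (by rw [hx]; rfl)

theorem LowDegree.lib {Φ : (F →+* ℂ) → Prop} (h : LowDegree Φ) :
    Pool.Agent.T9h38.CM.LowDegree Φ := by
  rcases h with h | h | ⟨h, h'⟩
  · exact Or.inl h
  · exact Or.inr (Or.inl h)
  · exact Or.inr (Or.inr ⟨h.lib, h'⟩)

theorem Good.lib {Φ : (F →+* ℂ) → Prop} (h : Good Φ) : Pool.Agent.T9h38.CM.GoodType Φ := by
  rcases h with ⟨h, h'⟩ | h | h | h | ⟨x, q, h1, h2, h3, h4⟩ | h
  · exact Or.inr (Or.inr (Or.inr (Or.inr (Or.inl ⟨h.lib, h'⟩))))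
  · exact Or.inr (Or.inr (Or.inr (Or.inl h.lib)))
  · exact Or.inr (Or.inl h)
  · exact Or.inr (Or.inr (Or.inl h))
  · exact Or.inr (Or.inr (Or.inr (Or.inr (Or.inr ⟨x, q, h1, by rw [h2]; rfl, h3, h4⟩))))
  · exact Or.inl h

theorem ite_inst (p : Prop) (h h' : Decidable p) :
    (@ite ℚ p h 1 0) = @ite ℚ p h' 1 0 := by
  by_cases hp : p
  · rw [if_pos hp, if_pos hp]
  · rw [if_neg hp, if_neg hp]

end Proof

/-- **The period torsor of abelian varieties with complex multiplication.** -/
theorem result {g : ℕ} (A : AbVar g) {I : Type} [Fintype I] {F : I → Type} [∀ i, Field (F i)]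
    [∀ i, NumberField (F i)] [∀ i, NumberField.IsCMField (F i)]
    (ι : (∀ i, F i) →+* Module.End ℚ A.H1) (hι : Function.Injective ι)
    (hend : ∀ P, IsEndomorphism A P ↔ ∃ a, ι a = P) (hdim : ∑ i, finrank ℚ (F i) = 2 * g)
    (h : Explained ι ∨
      ((∀ i j, i ≠ j → DisjointFields (F i) (F j)) ∧ ∀ i, Good (cmType ι i))) :
    ∀ G : Subgroup (GL (Fin (2 * g)) ℂ), IsAlgebraicSubgroup G → HasPoint (periods A) G →
      mumfordTate A ≤ G := by
  intro G hG hP
  have hend' : ∀ P, IsDeRhamBettiEnd QBar A.dR P ↔ ∃ a, ι a = P := by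
    intro P
    rw [← hend]
    constructor
    · intro h1
      obtain ⟨Q, hQ⟩ := A.hodge_end h1
      exact ⟨⟨Q, fun w => (hQ w).symm⟩, h1⟩
    · intro h1
      exact h1.2
  let _ : DecidableEq (Pool.Agent.T9h38.CM.Emb F) := Classical.decEq _
  have hdat := Pool.Agent.T9h38.CM.dat hι hdim hend'
  have hE : Pool.Agent.T9h38.CM.Explained ι (Pool.Agent.T9h38.CM.ch (F := F))
      Pool.Agent.T9h38.CM.cc := by
    rcases h with h | ⟨h1, h2⟩
    · intro J hst hodd hsm f hf s hs
      refine h J ⟨fun τ f hf => hst τ (Pool.Agent.T9h38.CM.sg τ) (fun x => rfl) f hf, hodd,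
        fun x y hxy hmem => hsm x y hxy ?_⟩ f hf s hs
      have e : Pool.Agent.T9h38.CM.eps Pool.Agent.T9h38.CM.cc x -
          Pool.Agent.T9h38.CM.eps Pool.Agent.T9h38.CM.cc y = difference x y := by
        funext z
        exact congrArg₂ (fun a b : ℚ => a - b)
          (congrArg₂ (fun a b : ℚ => a - b) (ite_inst _ _ _) (ite_inst _ _ _))
          (congrArg₂ (fun a b : ℚ => a - b) (ite_inst _ _ _) (ite_inst _ _ _))
      rw [e]
      exact hmem
    · exact Pool.Agent.T9h38.CM.explained hdat h1 fun i => (h2 i).lib
  obtain ⟨T, hT, x, hx, hxT⟩ := hP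
  refine sInf_le ⟨hG, fun z hz => ?_⟩
  obtain ⟨y, hy, hyz⟩ := Pool.Agent.T9h38.CM.main hdat hE hG hT hx hxT hz
  exact ⟨y, hy, hyz⟩

end Pool.Agent.Results.MP_470b79_ag.CMPeriodTorsors
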