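import Pool.Agent.T9h38.CS.TorH

set_option autoImplicit false

/-!
# Abelian varieties with complex multiplication split off from the period torsor of an arbitrary motive

Let `A i`, `i ∈ I`, be a family of abelian varieties over the field `ℚ̄` of algebraic numbers (the set `I`
may be infinite), such that `End(A i) ⊗ ℚ` is a CM field `F i` of degree `2 dim A i` (`HasCM`), with the CM
type `Φ i` (`cmType`), where `(F i, Φ i)` has one of the properties of `CMPeriodTorsors` (`Explained` or
`Good`, see below). Let `V` be **any** de Rham-Betti object over `ℚ̄` of rank `d`, for example the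
realization of any André motive. Nothing is assumed about periods: `AbVar` is the description of an
abelian variety over `ℚ̄` by theta functions, and `dR` are its periods.

**Theorem.** There is a subset `E` of `I`, the set of the exceptional indices of `V`, such that
* (a) `E` is finite, up to fields which are not disjoint: let `S` be a finite subset of `E` such that the
  fields `F i`, `i ∈ S`, are pairwise disjoint (`DisjointFields`: for all embeddings `φ` of `F i` and `ψ` of
  `F j` there is an automorphism of `ℂ` which fixes `φ` and maps `ψ` to its conjugate; this is so if the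
  intersection of the Galois closures is totally real, for example `ℚ`). Then
  `∑_{i ∈ S} 2 n i ≤ d = rank(V)`, for all numbers `n i` such that every nonzero `Aut(ℂ)`-stable space of
  odd rational functions on the embeddings of `F i` has dimension at least `n i` (`AtLeast`). So we may
  always take `n i = 1` (`one`), and `n i = dim A i` if this representation of `Aut(ℂ)` is irreducible
  (`irreducible`), for example for elliptic curves;
* (b) for every finite family of the `A i`, `i ∉ E`, with pairwise disjoint fields, the Hodge group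
  splits off from the period torsor of `V` (`TorsorSplits`): let `G` be an algebraic subgroup of
  `GL(M_B)`, `M = h¹(∏ A i) ⊕ V`, defined over `ℚ`, such that the comparison isomorphism of `M` is a point of
  a torsor of `G` over `ℚ̄` (`HasPoint`). Then
  1. `G` contains the group `Hg(∏ A i) × 1`, where `Hg(∏ A i)` is the Hodge group of `∏ A i`, and `1` is
    the trivial group acting on `V` (`hodgeGroup`);
  2. for every nonzero complex number `z` there is an element of `G` which acts on `H¹(∏ A i)` by the
    Hodge structure `h(z)`.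

The group `G_dRB(M)` of the problem is the smallest group `G` as in (b).

## The types

A *space of relations* for `(F, Φ)` is a space of rational functions on the embeddings of `F` which is
stable under `Aut(ℂ)`, whose elements are odd with respect to complex conjugation, and which contains
none of the functions `ε_φ - ε_ψ`, `φ ≠ ψ`, where `ε_φ` is `1` at `φ` and `-1` at the conjugate of `φ`.
`Explained` means that all functions in all spaces of relations have sum zero over `Φ`. `Good` means
that one of the following is true. Here `F⁺` is the maximal real subfield, `g` is its degree, and `Φ` is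
called balanced if both extensions to `F` of the embeddings of `K` occur in `Φ` with the same
multiplicity, for all imaginary quadratic subfields `K` of `F`.
1. `TransitiveType`: `Φ` is balanced, and the Galois group of `F⁺` is triply transitive (`g ≥ 3`), or it
  is doubly transitive and no number `n (g - n) (g - 1)`, `2 ≤ n ≤ g - 2`, is a square;
2. `LowDegree`: `g ≤ 2`, or `Φ` is balanced and `g` is a prime number, or `Φ` is balanced and primitive
  and `g = 4`;
3. `Separated`: for embeddings `φ`, `ψ` of `F`, `ψ ≠ φ`, `ψ ≠ \bar φ`, there is an automorphism of `ℂ` which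
  fixes `φ` and maps `ψ` to its conjugate;
4. `TwoPower`: `g` is a power of two and some automorphism of `ℂ` permutes the embeddings of `F`
  cyclically;
5. `WeilType`: `F` contains an imaginary quadratic field `K`, both embeddings of `K` have the same
  multiplicity in `Φ`, and `Aut(ℂ / K)` permutes the `K`-embeddings of `F` doubly transitively;
6. `OddIrreducible`: the representation of `Aut(ℂ)` on the odd functions is irreducible over `ℚ`.

Examples: elliptic curves with complex multiplication (see the theorem `quadratic` for the fields),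
abelian surfaces and, without imaginary quadratic subfields, abelian varieties of prime dimension;
the general case in every dimension; the simple abelian fourfolds of CM type such that no imaginary
quadratic subfield has signature `(3, 1)`, including those of Weil type with exceptional Hodge
classes.

## What this says about `Ω^dRB = Ω^And`

Let `N` be an André motive whose realization is `V`, such that the Tate motive `ℚ(1)` is in `⟨N⟩` (one
may add it to `N`), and let `M = h¹(∏ A i) ⊕ N`, for finitely many `A i` with `i ∉ E` and pairwise disjoint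
fields. By the theorems of Deligne (Hodge classes on abelian varieties are absolute) and André (they
are motivated) the group `G_And(∏ A i)` is the Mumford-Tate group. So the kernel of
`G_And(M) → G_And(N)` consists of elements of the Mumford-Tate group of `∏ A i` which act trivially on
`ℚ(1)`, that is, it is contained in `Hg(∏ A i) × 1`. The group `G_dRB(M)` contains `Hg(∏ A i) × 1` by the
theorem, and it is mapped onto `G_dRB(N)`. Therefore **the equality `Ω^dRB = Ω^And` holds for `M` if and
only if it holds for `N`.** If all Hodge classes on the powers of `∏ A i` are algebraic (for example for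
elliptic curves, and for irreducible fields, where they are generated by classes of divisors), then
the same argument shows for homological motives `N` that the equalities of Q2 for `N` imply those for
`M`.

For example, let `N` be an arbitrary André motive of rank `d`. With at most `d / 2` exceptions, all
imaginary quadratic fields `K` have the following property: for all finite products of elliptic
curves with complex multiplication by such fields, the equality `Ω^dRB = Ω^And` for `h¹(∏ E_K) ⊕ N` is
equivalent to the equality for `N`. The bound is sharp: for `N = h¹` of a product of `n` elliptic curves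
with complex multiplication by different fields, `d = 2 n` and there are `n` exceptions.

## Relation to the literature and to the files of the library

Known are products of elliptic curves and of abelian surfaces with complex multiplication (Chudnovsky;
Kreutz, Shen and Vial). In `SplitTorsors` (a file of the library) and in `QuaternionSpinTorsors` the Lie
algebras of the abelian varieties which split off from `V` are semisimple. This can be shown with the
rational Lie algebra which is generated by the logarithmic derivatives of the periods, since perfect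
Lie algebras can be separated by brackets. Here the Lie algebras are commutative and this method
does not apply. `CMPeriodTorsors` is the case `V = 0`. The theorems can be combined: first the
abelian varieties of `QuaternionSpinTorsors` are split off from `h¹(∏ A i) ⊕ V` (this does not add
exceptions, since `h¹(∏ A i)` is of CM type) and then `h¹(∏ A i)` is split off from `V`.

## Proof

The Lie algebra of an algebraic group over `ℂ` contains the replicas (Chevalley) of its elements: for a
`ℚ`-linear map `σ : ℂ → ℂ` and an element `(X, Y)`, where `X` is diagonal with the entries `x` and `Y` is a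
matrix whose eigenvalues are mapped to zero by `σ`, the one-parameter group `(exp(t σ(x)), 1)` is in the
group. We prove this (`CS/EP`, `CS/Kill`) with the ring of functions in `t` generated by `t` and the
exponential functions `exp(μ t)`, which is the algebra of the additive monoid `ℂ` over the polynomials,
so the map `exp(μ t) ↦ exp(σ(μ) t)`, `t ↦ 0` is well defined and can be applied to the polynomial equations
of the group. Let `𝔩` be the rational Lie algebra generated by the logarithmic derivatives of the
periods. Its elements act on `H_1(A i, ℚ)` by elements `a_i` of `F i` with `\bar a_i + a_i` rational (by the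
Riemann relations), and on `V` by a matrix `Y`. Let `D` be the group of the diagonal elements of `G` which
act trivially on `V`. An odd relation `f` between the characters on `D` has the property
(`CS/TorG`) that `∑ f(φ) (φ(a) - \bar φ(a))` is in the space `L(Y)` spanned by `1` and by the eigenvalues
of `Y`, for all elements of `𝔩`. These relations are an `Aut(ℂ)`-stable space, and if the fields are
disjoint, then it is the sum of the spaces of the single members (`CS/Gal`), which only depend on
`A i` and `V` (`CS/Rel`). The index `i` is exceptional if this is not a space of relations as above, that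
is, if it contains some `ε_φ - ε_ψ`, `φ ≠ ψ`. If `i` is not exceptional, then all relations have sum
zero over `Φ i`, and the Hodge cocharacter is in `D` by Dedekind's theorem (`CS/TorH`). For exceptional `i`
there is an element of `𝔩` with `φ(a_i) ≠ ψ(a_i)`, by the theorem of Schneider and Lang, and `L(Y)`
contains a nonzero image of the space generated by `ε_φ - ε_ψ`, of dimension at least `n i`. These
images are independent for disjoint fields, they consist of purely imaginary numbers, and the
imaginary part of `L(Y)` has dimension at most `d / 2` (`CS/CntG`). For the weights, `σ` is the real part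
(`CS/KillG`).
-/

open Module Matrix Pool.Agent.Y102 Pool.Agent.W516.DR Pool.Agent.H204R3.GP

noncomputable section

namespace Pool.Agent.Results.MP_470b79_ag.CMTypesTimesMotive

/-! ### CM fields and types -/

section Field

variable {F : Type} [Field F]

/-- The image of an embedding under an automorphism of `ℂ`. -/
def act (τ : ℂ ≃+* ℂ) (φ : F →+* ℂ) : F →+* ℂ := (τ : ℂ →+* ℂ).comp φ

/-- The complex conjugate of an embedding. -/
def bar (φ : F →+* ℂ) : F →+* ℂ := (starRingEnd ℂ).comp φ

/-- The type `Φ` is balanced with respect to `x`: for every value `κ` of `x`, the embeddings with this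
value are in `Φ` or not in `Φ` equally often. -/
def BalancedAt (Φ : (F →+* ℂ) → Prop) (x : F) : Prop :=
  ∀ κ : ℂ, Nat.card {φ : F →+* ℂ // φ x = κ ∧ Φ φ} = Nat.card {φ : F →+* ℂ // φ x = κ ∧ ¬Φ φ}

/-- The type `Φ` is balanced with respect to all imaginary quadratic subfields. -/
def Balanced [CharZero F] (Φ : (F →+* ℂ) → Prop) : Prop :=
  ∀ (x : F) (q : ℚ), q < 0 → x ^ 2 = (q : F) → BalancedAt Φ x

/-- Primitive types. -/
def Primitive (Φ : (F →+* ℂ) → Prop) : Prop :=
  ∀ φ ψ : F →+* ℂ, φ ≠ ψ → ∃ τ : ℂ ≃+* ℂ, Φ (act τ φ) ∧ ¬Φ (act τ ψ)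

/-- The cases of low degree or prime dimension. -/
def LowDegree [CharZero F] (Φ : (F →+* ℂ) → Prop) : Prop :=
  finrank ℚ F = 2 ∨ finrank ℚ F = 4 ∨
    (Balanced Φ ∧ ((∃ p : ℕ, p.Prime ∧ finrank ℚ F = 2 * p) ∨ (finrank ℚ F = 8 ∧ Primitive Φ)))

/-- Two embeddings which are not equal or conjugate are separated by an automorphism. -/
def Separated (F : Type) [Field F] : Prop :=
  ∀ φ ψ : F →+* ℂ, ψ ≠ φ → ψ ≠ bar φ → ∃ τ : ℂ ≃+* ℂ, act τ φ = φ ∧ act τ ψ = bar ψ

/-- Some automorphism of `ℂ` permutes the embeddings cyclically, and the degree is a power of two. -/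
def TwoPower (F : Type) [Field F] [CharZero F] : Prop :=
  (∃ k : ℕ, finrank ℚ F = 2 ^ k) ∧ ∃ τ : ℂ ≃+* ℂ, ∀ φ ψ : F →+* ℂ, ∃ n : ℕ, (act τ)^[n] φ = ψ

/-- Weil type for a field with a doubly transitive Galois group over an imaginary quadratic field. -/
def WeilType [CharZero F] (Φ : (F →+* ℂ) → Prop) : Prop :=
  ∃ (x : F) (q : ℚ), q < 0 ∧ x ^ 2 = (q : F) ∧
    (∀ φ ψ φ' ψ' : F →+* ℂ, φ ≠ ψ → φ' ≠ ψ' → ψ x = φ x → φ' x = φ x → ψ' x = φ x →
      ∃ τ : ℂ ≃+* ℂ, act τ φ = φ' ∧ act τ ψ = ψ') ∧
    BalancedAt Φ x

/-- The representation on the odd functions is irreducible over `ℚ`. -/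
def OddIrreducible (F : Type) [Field F] : Prop :=
  ∀ J : Submodule ℚ ((F →+* ℂ) → ℚ), (∀ τ : ℂ ≃+* ℂ, ∀ f ∈ J, (fun φ => f (act τ φ)) ∈ J) →
    (∀ f ∈ J, ∀ φ, f (bar φ) = -f φ) →
    J = ⊥ ∨ ∀ f : (F →+* ℂ) → ℚ, (∀ φ, f (bar φ) = -f φ) → f ∈ J

/-- The embeddings `φ` and `ψ` are equal on the maximal real subfield. -/
def Same (φ ψ : F →+* ℂ) : Prop := ψ = φ ∨ ψ = bar φ

/-- `Aut(ℂ)` acts doubly transitively on the embeddings of the maximal real subfield. -/
def RealTwoTransitive (F : Type) [Field F] : Prop :=
  ∀ φ ψ φ' ψ' : F →+* ℂ, ¬Same φ ψ → ¬Same φ' ψ' →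
    ∃ τ : ℂ ≃+* ℂ, Same φ' (act τ φ) ∧ Same ψ' (act τ ψ)

/-- `Aut(ℂ)` acts triply transitively on the embeddings of the maximal real subfield. -/
def RealThreeTransitive (F : Type) [Field F] : Prop :=
  ∀ φ ψ χ φ' ψ' χ' : F →+* ℂ, ¬Same φ ψ → ¬Same φ χ → ¬Same ψ χ →
    ¬Same φ' ψ' → ¬Same φ' χ' → ¬Same ψ' χ' →
    ∃ τ : ℂ ≃+* ℂ, Same φ' (act τ φ) ∧ Same ψ' (act τ ψ) ∧ Same χ' (act τ χ)

/-- Balanced types for fields with a multiply transitive maximal real subfield: triply transitive of
degree at least three, or doubly transitive with an arithmetical condition for the degree `g`. -/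
def TransitiveType [CharZero F] (Φ : (F →+* ℂ) → Prop) : Prop :=
  Balanced Φ ∧ ((6 ≤ finrank ℚ F ∧ RealThreeTransitive F) ∨
    (RealTwoTransitive F ∧ ∃ g : ℕ, finrank ℚ F = 2 * g ∧
      ∀ n : ℕ, 2 ≤ n → n + 2 ≤ g → ¬IsSquare (n * (g - n) * (g - 1))))

/-- The conditions for one factor. -/
def Good [CharZero F] (Φ : (F →+* ℂ) → Prop) : Prop :=
  TransitiveType Φ ∨ LowDegree Φ ∨ Separated F ∨ TwoPower F ∨ WeilType Φ ∨ OddIrreducible F

/-- The fields `F` and `F'` are disjoint. -/
def DisjointFields (F F' : Type) [Field F] [Field F'] : Prop :=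
  ∀ (φ : F →+* ℂ) (ψ : F' →+* ℂ), ∃ τ : ℂ ≃+* ℂ, act τ φ = φ ∧ act τ ψ = bar ψ

/-- The function `ε_φ - ε_ψ` on the embeddings of `F`. -/
def difference (φ ψ : F →+* ℂ) : (F →+* ℂ) → ℚ :=
  open Classical in fun χ =>
    ((if χ = φ then 1 else 0) - (if χ = bar φ then 1 else 0)) -
      ((if χ = ψ then 1 else 0) - (if χ = bar ψ then 1 else 0))

/-- Spaces of relations. -/
structure IsRelationSpace (J : Submodule ℚ ((F →+* ℂ) → ℚ)) : Prop where
  stable : ∀ τ : ℂ ≃+* ℂ, ∀ f ∈ J, (fun φ => f (act τ φ)) ∈ J
  odd : ∀ f ∈ J, ∀ φ, f (bar φ) = -f φ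
  small : ∀ φ ψ, φ ≠ ψ → difference φ ψ ∉ J

/-- Every nonzero stable space of odd functions on the embeddings has dimension at least `n`. -/
def AtLeast (F : Type) [Field F] (n : ℕ) : Prop :=
  ∀ J : Submodule ℚ ((F →+* ℂ) → ℚ), (∀ τ : ℂ ≃+* ℂ, ∀ f ∈ J, (fun φ => f (act τ φ)) ∈ J) →
    (∀ f ∈ J, ∀ φ, f (bar φ) = -f φ) → J ≠ ⊥ → n ≤ finrank ℚ J

end Field


/-! ### Abelian varieties with complex multiplication -/

section AbVar

variable {g : ℕ}

/-- The linear map `P` of the rational homology is an element of `End(A) ⊗ ℚ`: it respects the complex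
structure of the tangent space and the de Rham cohomology over `ℚ̄`. -/
def IsEndomorphism (A : AbVar g) (P : Module.End ℚ A.H1) : Prop :=
  (∃ Q : (Fin g → ℂ) →ₗ[ℂ] (Fin g → ℂ), ∀ w, A.per (P w) = Q (A.per w)) ∧
    IsDeRhamBettiEnd QBar A.dR P

/-- `End(A) ⊗ ℚ` is the number field `F`, of degree `2 dim A`. -/
structure HasCM (A : AbVar g) {F : Type} [Field F] [NumberField F]
    (ι : F →+* Module.End ℚ A.H1) : Prop where
  degree : finrank ℚ F = 2 * g
  endo : ∀ P, IsEndomorphism A P ↔ ∃ a, ι a = P

variable {F : Type} [Field F]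

/-- The CM type of `A`: the embeddings `φ` of `F` such that `F` acts by `φ` on a quotient of the tangent
space. -/
def cmType {A : AbVar g} (ι : F →+* Module.End ℚ A.H1) (φ : F →+* ℂ) : Prop :=
  ∃ l : (Fin g → ℂ) →ₗ[ℂ] ℂ, l ≠ 0 ∧ ∀ a v, l (A.per (ι a v)) = φ a * l (A.per v)

/-- The functions in the spaces of relations have sum zero over the CM type. -/
def Explained {A : AbVar g} (ι : F →+* Module.End ℚ A.H1) : Prop :=
  ∀ J : Submodule ℚ ((F →+* ℂ) → ℚ), IsRelationSpace J → ∀ f ∈ J,
    ∀ s : Finset (F →+* ℂ), (∀ φ, φ ∈ s ↔ cmType ι φ) → ∑ φ ∈ s, f φ = 0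

end AbVar

/-! ### De Rham-Betti structures -/

/-- A de Rham-Betti structure over the field of algebraic numbers, of rank `d` (for example the
realization of an André motive). The Betti side is the dual of the vector space `ℚ ^ d`, and the
de Rham side is given by a basis, whose elements are considered as linear functions on `ℚ ^ d` with
complex values (the periods are the values on the rational vectors); the independence means that the
comparison is an isomorphism. -/
structure Structure (d : ℕ) where
  /-- the basis of the de Rham side -/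
  dR : Fin d → ((Fin d → ℚ) →ₗ[ℚ] ℂ)
  indep : LinearIndependent ℂ dR

/-! ### Torsors -/

section Family

variable {K : Type} [Fintype K] [DecidableEq K] {g : K → ℕ} (A : ∀ a, AbVar (g a)) {d : ℕ}
  (V : Structure d)

/-- The basis of the Betti realization of `h¹(∏ A a) ⊕ V`: the dual of the bases of the lattices, and the
basis of `V`. -/
abbrev Row (g : K → ℕ) (d : ℕ) : Type := (Σ a, Fin (2 * g a)) ⊕ (Σ _ : Unit, Fin d)

/-- The basis of the de Rham realization of `h¹(∏ A a) ⊕ V`. -/
abbrev Col (g : K → ℕ) (d : ℕ) : Type := (Σ a, Fin (g a) ⊕ Fin (g a)) ⊕ (Σ _ : Unit, Fin d)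

/-- The matrix of periods of the abelian variety `A`: the differential forms of the basis of
`H¹_dR(A / ℚ̄)` are integrated over the basis of the lattice. -/
def periodsA {g : ℕ} (A : AbVar g) : Matrix (Fin (2 * g)) (Fin g ⊕ Fin g) ℂ :=
  Matrix.of fun p q => A.dR q (Pi.single p 1)

/-- The matrix of periods of `V`. -/
def periodsV {d : ℕ} (V : Structure d) : Matrix (Fin d) (Fin d) ℂ :=
  Matrix.of fun p q => V.dR q (Pi.single p 1)

/-- The matrix of the comparison isomorphism of `h¹(∏ A a) ⊕ V`. -/
def periods : Matrix (Row g d) (Col g d) ℂ :=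
  fromBlocks (blockDiagonal' fun a => periodsA (A a)) 0 0 (blockDiagonal' fun _ => periodsV V)

/-- A subgroup of `GL_R(ℂ)` defined by polynomials with rational coefficients. -/
def IsAlgebraicSubgroup {R : Type} [Fintype R] [DecidableEq R] (G : Subgroup (GL R ℂ)) : Prop :=
  ∃ S : Set (MvPolynomial (R × R) ℚ), ∀ x : GL R ℂ, x ∈ G ↔
    ∀ p ∈ S, MvPolynomial.aeval (fun b : R × R => (x : Matrix R R ℂ) b.1 b.2) p = 0

/-- The matrix `P` belongs to a torsor `G · T⁻¹` of `G` defined over `ℚ̄`. -/
def HasPoint {R C : Type} [Fintype R] [DecidableEq R] [Fintype C] (P : Matrix R C ℂ)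
    (G : Subgroup (GL R ℂ)) : Prop :=
  ∃ T : Matrix C R ℂ, (∀ i j, IsAlgebraic ℚ (T i j)) ∧ ∃ x ∈ G, (x : Matrix R R ℂ) = P * T

/-- The Hodge structure of `H¹(A)`: the complex number `z` acts on `H_1(A, ℝ) = ℂ ^ g` by
multiplication, and on `H¹(A, ℝ)` by the transposed map, here in the basis of `H¹(A, ℚ)` which is
dual to the basis of the lattice. -/
def hodge {g : ℕ} (A : AbVar g) (z : ℂ) : Matrix (Fin (2 * g)) (Fin (2 * g)) ℂ :=
  Matrix.of fun i j => ((A.lam.repr (z • A.lam i) j : ℝ) : ℂ)

/-- The group `Hg(∏ A a) × 1`: the smallest algebraic group over `ℚ` which contains the action of the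
complex numbers of absolute value one on `H¹(∏ A a)`, acting trivially on `V`. -/
def hodgeGroup (d : ℕ) : Subgroup (GL (Row g d) ℂ) :=
  sInf {G | IsAlgebraicSubgroup G ∧ ∀ z : ℂ, ‖z‖ = 1 → ∃ x ∈ G,
    (x : Matrix (Row g d) (Row g d) ℂ) = fromBlocks (blockDiagonal' fun a => hodge (A a) z) 0 0 1}

/-- The Hodge group of `∏ A a` splits off from the period torsor of `V`. -/
def TorsorSplits : Prop :=
  ∀ G : Subgroup (GL (Row g d) ℂ), IsAlgebraicSubgroup G → HasPoint (periods A V) G →
    hodgeGroup A d ≤ G ∧ ∀ z : ℂ, z ≠ 0 → ∃ x ∈ G, ∃ v,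
      (x : Matrix (Row g d) (Row g d) ℂ) =
        fromBlocks (blockDiagonal' fun a => hodge (A a) z) 0 0 v

end Family

theorem HasCM.dat {g : ℕ} {A : AbVar g} {F : Type} [Field F] [NumberField F]
    [NumberField.IsCMField F] {ι : F →+* Module.End ℚ A.H1} (h : HasCM A ι) :
    Pool.Agent.T9h38.CM.Dat ι (fun φ : F →+* ℂ => φ) Pool.Agent.T9h38.CM.cj := by
  refine Pool.Agent.T9h38.CS.dat1 h.degree fun P => ?_
  rw [← h.endo]
  constructor
  · intro h1
    obtain ⟨Q, hQ⟩ := A.hodge_end h1
    exact ⟨⟨Q, fun w => (hQ w).symm⟩, h1⟩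
  · intro h1
    exact h1.2

section Proof

variable {F : Type} [Field F] [NumberField F]

theorem Balanced.lib {Φ : (F →+* ℂ) → Prop} (h : Balanced Φ) : Pool.Agent.T9h38.CM.Balanced Φ :=
  fun x q hq hx => h x q hq (by rw [hx]; rfl)

theorem LowDegree.lib {Φ : (F →+* ℂ) → Prop} (h : LowDegree Φ) :
    Pool.Agent.T9h38.CM.LowDegree Φ := by
  rcases h with h | h | ⟨h, h'⟩
  · exact Or.inl h
  · exact Or.inr (Or.inl h)
  · exact Or.inr (Or.inr ⟨h.lib, h'⟩)

theorem Good.lib {Φ : (F →+* ℂ) → Prop} (h : Good Φ) : Pool.Agent.T9h38.CM.GoodType Φ := by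
  rcases h with ⟨h, h'⟩ | h | h | h | ⟨x, q, h1, h2, h3, h4⟩ | h
  · exact Or.inr (Or.inr (Or.inr (Or.inr (Or.inl ⟨h.lib, h'⟩))))
  · exact Or.inr (Or.inr (Or.inr (Or.inl h.lib)))
  · exact Or.inr (Or.inl h)
  · exact Or.inr (Or.inr (Or.inl h))
  · exact Or.inr (Or.inr (Or.inr (Or.inr (Or.inr ⟨x, q, h1, by rw [h2]; rfl, h3, h4⟩))))
  · exact Or.inl h

theorem ite_inst (p : Prop) (h h' : Decidable p) :
    (@ite ℚ p h 1 0) = @ite ℚ p h' 1 0 := by
  by_cases hp : p
  · rw [if_pos hp, if_pos hp]
  · rw [if_neg hp, if_neg hp]

end Proof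

section Explain

variable {g : ℕ} {A : AbVar g} {F : Type} [Field F] [NumberField F] [NumberField.IsCMField F]
  {ι : F →+* Module.End ℚ A.H1}

local instance decEmb : DecidableEq (F →+* ℂ) := Classical.decEq _

theorem HasCM.type (h : HasCM A ι) (φ : F →+* ℂ) : cmType ι (Pool.Agent.T9h38.CM.cj φ) ↔
    ¬cmType ι φ := by
  obtain ⟨δ, hδ, hδ'⟩ := Pool.Agent.T9h38.CM.exists_diag h.dat
  have hI : (Complex.I : ℂ) ≠ -Complex.I := by
    intro h0
    have e1 : (2 : ℂ) * Complex.I = 0 := by linear_combination h0
    rcases mul_eq_zero.1 e1 with e2 | e2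
    · exact two_ne_zero e2
    · exact Complex.I_ne_zero e2
  have h1 : cmType ι (Pool.Agent.T9h38.CM.cj φ) ↔ δ (Pool.Agent.T9h38.CM.cj φ) = Complex.I :=
    Pool.Agent.T9h38.CM.type_iff h.dat hδ _
  have h2 : cmType ι φ ↔ δ φ = Complex.I := Pool.Agent.T9h38.CM.type_iff h.dat hδ _
  have h3 : δ (Pool.Agent.T9h38.CM.cj φ) = (starRingEnd ℂ) (δ φ) :=
    Pool.Agent.T9h38.CM.delta_conj h.dat hδ φ
  rw [h1, h2, h3]
  rcases hδ' φ with e1 | e1
  · rw [e1, Complex.conj_I]
    exact ⟨fun e => absurd e.symm hI, fun e => absurd rfl e⟩
  · rw [e1, map_neg, Complex.conj_I, neg_neg]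
    exact ⟨fun _ e => hI e.symm, fun _ => rfl⟩

theorem HasCM.expl (h : HasCM A ι) (h' : Explained ι ∨ Good (cmType ι)) :
    Pool.Agent.T9h38.CS.Expl1 ι := by
  intro J hJ f hf s hs
  rcases h' with h' | h'
  · refine h' J ⟨hJ.stable, hJ.odd, fun φ ψ hne hmem => hJ.small φ ψ hne ?_⟩ f hf s hs
    have e : Pool.Agent.T9h38.CM.eps Pool.Agent.T9h38.CM.cj φ -
        Pool.Agent.T9h38.CM.eps Pool.Agent.T9h38.CM.cj ψ = difference φ ψ := by
      funext z
      exact congrArg₂ (fun a b : ℚ => a - b)
        (congrArg₂ (fun a b : ℚ => a - b) (ite_inst _ _ _) (ite_inst _ _ _))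
        (congrArg₂ (fun a b : ℚ => a - b) (ite_inst _ _ _) (ite_inst _ _ _))
    rw [e]
    exact hmem
  · exact Pool.Agent.T9h38.CM.sum_eq_zero_of_good (Φ := cmType ι) h.type h'.lib hJ hf hs

end Explain

/-- **Abelian varieties with complex multiplication and arbitrary de Rham-Betti structures.** -/
theorem result {I : Type} {g : I → ℕ} (A : ∀ i, AbVar (g i)) {F : I → Type} [∀ i, Field (F i)]
    [∀ i, NumberField (F i)] [∀ i, NumberField.IsCMField (F i)]
    (ι : ∀ i, F i →+* Module.End ℚ (A i).H1) (hA : ∀ i, HasCM (A i) (ι i))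
    (h : ∀ i, Explained (ι i) ∨ Good (cmType (ι i))) {d : ℕ} (V : Structure d) :
    ∃ E : Set I,
      (∀ n : I → ℕ, (∀ i, AtLeast (F i) (n i)) → ∀ S : Finset I, (∀ i ∈ S, i ∈ E) →
        (∀ i ∈ S, ∀ j ∈ S, i ≠ j → DisjointFields (F i) (F j)) → ∑ i ∈ S, 2 * n i ≤ d) ∧
      ∀ {K : Type} [Fintype K] [DecidableEq K] (e : K → I), (∀ a, e a ∉ E) →
        (∀ a b, a ≠ b → DisjointFields (F (e a)) (F (e b))) →
        TorsorSplits (fun a => A (e a)) V := by
  classical
  let V' : Pool.Agent.N192.GP.DRS d := ⟨V.dR, V.indep⟩
  refine ⟨{i | Pool.Agent.T9h38.CS.Exc (ι i) V'}, fun n hn S hS hdis => ?_,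
    fun e he hdis G hG hP => ?_⟩
  · have h1 := Pool.Agent.T9h38.CS.countG (K := S) (ι := fun i : S => ι i.1) (V := V')
      (fun i => (hA i.1).dat)
      (fun i j hij => hdis i.1 i.2 j.1 j.2 fun h => hij (Subtype.ext h)) (n := fun i => n i.1)
      (fun i => hn i.1) fun i => hS i.1 i.2
    rwa [Finset.sum_coe_sort S (fun i => 2 * n i)] at h1
  · obtain ⟨T, hT, x, hx, hxT⟩ := hP
    have hH := Pool.Agent.N192.GT.pt_of (A := fun a => A (e a)) (V := fun _ : Unit => V')
      hG hT hx hxT
    have hD := fun a => (hA (e a)).dat
    have hX := fun a => (hA (e a)).expl (h (e a))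
    refine ⟨sInf_le ⟨hG, fun z hz => ?_⟩, fun z hz => ?_⟩
    · obtain ⟨y, hy, hyz⟩ := Pool.Agent.T9h38.CS.circle_mem (V := V') hD hdis he hX hG hH hz
      exact ⟨y, hy, hyz⟩
    · obtain ⟨y, hy, v, hyz⟩ := Pool.Agent.T9h38.CS.torus_memG (V := V') hD hdis he hX hG hH hz
      exact ⟨y, hy, v, hyz⟩

/-! ### Examples -/

/-- Every nonzero stable space of odd functions has dimension at least one. -/
theorem one (F : Type) [Field F] [NumberField F] [NumberField.IsCMField F] : AtLeast F 1 :=
  Pool.Agent.T9h38.CS.minOdd_one

/-- For irreducible fields of degree `2 g` the dimension is at least `g`. -/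
theorem irreducible {F : Type} [Field F] [NumberField F] [NumberField.IsCMField F]
    (h : OddIrreducible F) {g : ℕ} (hg : finrank ℚ F = 2 * g) : AtLeast F g :=
  Pool.Agent.T9h38.CS.minOdd_of_irr hg h

/-- Fields whose embeddings are separated by automorphisms are irreducible. -/
theorem separated {F : Type} [Field F] [NumberField F] [NumberField.IsCMField F]
    (h : Separated F) : OddIrreducible F := Pool.Agent.T9h38.CS.irr_of_separated h

/-- Imaginary quadratic fields are irreducible, and they are disjoint from all number fields in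
which they are not contained. -/
theorem quadratic {F F' : Type} [Field F] [NumberField F] [NumberField.IsCMField F] [Field F']
    [NumberField F'] (h : finrank ℚ F = 2) :
    OddIrreducible F ∧ (IsEmpty (F →+* F') → DisjointFields F' F) :=
  ⟨Pool.Agent.T9h38.CS.irr_of_quadratic h, Pool.Agent.T9h38.CS.disjoint_of_quadratic h⟩

end Pool.Agent.Results.MP_470b79_ag.CMTypesTimesMotive
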